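import Pool.Agent.Helper4.BT.Global

/-!
# No sign-changing bubble towers in dimension six

The definitions below are written for every dimension `N`, exactly as in the problem; the theorem
is about `N = 6`, where it excludes sign-changing bubble towers on every bounded open set and at
every positive concentration value.
-/

namespace Pool.Agent.Results.MP_b15193_an.NoTowersDimSix

open MeasureTheory Metric Set Laplacian InnerProductSpace Filter Topology

/-- Euclidean space of dimension `N`. -/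
abbrev RN (N : ℕ) := EuclideanSpace ℝ (Fin N)

/-- The critical exponent `2* = 2N/(N-2)`. -/
noncomputable def critExp (N : ℕ) : ℝ := 2 * (N : ℝ) / ((N : ℝ) - 2)

/-- The bubble `U_{μ,ξ}(x) = α_N μ^((N-2)/2) (μ² + |x-ξ|²)^(-(N-2)/2)` with
`α_N = (N(N-2))^((N-2)/4)`. -/
noncomputable def bubble (N : ℕ) (μ : ℝ) (ξ x : RN N) : ℝ :=
  ((N : ℝ) * ((N : ℝ) - 2)) ^ (((N : ℝ) - 2) / 4) * μ ^ (((N : ℝ) - 2) / 2)
    * (μ ^ 2 + ‖x - ξ‖ ^ 2) ^ (-(((N : ℝ) - 2) / 2))

/-- The class of functions in which solutions and projections live: `v` is continuous, vanishes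
outside `Ω` (so `v = 0` on the boundary), is of class `C²` in `Ω` and has finite Dirichlet
integral. For a smooth bounded domain the weak `H¹₀` solutions of the critical equation and the
projections of the bubbles are of this kind by elliptic regularity. -/
structure Adm (N : ℕ) (Ω : Set (RN N)) (v : RN N → ℝ) : Prop where
  cont : Continuous v
  zero : ∀ x, x ∉ Ω → v x = 0
  smooth : ContDiffOn ℝ 2 v Ω
  energy : IntegrableOn (fun x => ‖fderiv ℝ v x‖ ^ 2) Ω

/-- `u` solves `-Δu = λ u + |u|^(2*-2) u` in `Ω`, `u = 0` on the boundary. -/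
def IsSolution (N : ℕ) (Ω : Set (RN N)) (lam : ℝ) (u : RN N → ℝ) : Prop :=
  Adm N Ω u ∧ ∀ x ∈ Ω, -(Δ u) x = lam * u x + |u x| ^ (critExp N - 2) * u x

/-- `W` is the projection of the bubble `U_{μ,ξ}`: `-ΔW = -ΔU_{μ,ξ}` in `Ω`, `W = 0` on the
boundary. -/
def IsProjection (N : ℕ) (Ω : Set (RN N)) (μ : ℝ) (ξ : RN N) (W : RN N → ℝ) : Prop :=
  Adm N Ω W ∧ ∀ x ∈ Ω, -(Δ W) x = -(Δ (bubble N μ ξ)) x

/-- The energy `E_λ(u)`. -/
noncomputable def energy (N : ℕ) (Ω : Set (RN N)) (lam : ℝ) (u : RN N → ℝ) : ℝ :=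
  1 / 2 * (∫ x in Ω, ‖fderiv ℝ u x‖ ^ 2) - lam / 2 * (∫ x in Ω, u x ^ 2)
    - 1 / critExp N * ∫ x in Ω, |u x| ^ critExp N

/-- A sign-changing bubble tower on `Ω` at `lamBar`: parameters `lam n → lamBar`, solutions `u n`
at `lam n`, a solution `u0` at `lamBar` (possibly zero), a sign `σ`, `k ≥ 2` scales
`mu n j > 0` and centres `xi n j` (`1 ≤ j ≤ k`) with projected bubbles `W n j`, all centres
converging to one point `xi0` of `Ω`, the scales tending to zero and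
`mu n (j+1) / mu n j → 0`, such that
`u n = u0 + σ ∑_{j=1}^{k} (-1)^j W n j + o(1)` in `H¹₀(Ω)`. -/
structure IsTower (N : ℕ) (Ω : Set (RN N)) (lamBar : ℝ) (k : ℕ) (σ : ℝ) (lam : ℕ → ℝ)
    (u : ℕ → RN N → ℝ) (u0 : RN N → ℝ) (mu : ℕ → ℕ → ℝ) (xi : ℕ → ℕ → RN N) (xi0 : RN N)
    (W : ℕ → ℕ → RN N → ℝ) : Prop where
  two_le : 2 ≤ k
  sign : σ = 1 ∨ σ = -1
  lam_tendsto : Tendsto lam atTop (𝓝 lamBar)
  solution : ∀ n, IsSolution N Ω (lam n) (u n)
  solution0 : IsSolution N Ω lamBar u0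
  energy_bounded : ∃ M : ℝ, ∀ n, energy N Ω (lam n) (u n) ≤ M
  sup_tendsto : Tendsto (fun n => ⨆ x, |u n x|) atTop atTop
  centre_mem : xi0 ∈ Ω
  scale_pos : ∀ n, ∀ j ∈ Finset.Icc 1 k, 0 < mu n j
  projection : ∀ n, ∀ j ∈ Finset.Icc 1 k, IsProjection N Ω (mu n j) (xi n j) (W n j)
  centre_tendsto : ∀ j ∈ Finset.Icc 1 k, Tendsto (fun n => xi n j) atTop (𝓝 xi0)
  scale_tendsto : ∀ j ∈ Finset.Icc 1 k, Tendsto (fun n => mu n j) atTop (𝓝 0)
  ratio_tendsto : ∀ j ∈ Finset.Ico 1 k, Tendsto (fun n => mu n (j + 1) / mu n j) atTop (𝓝 0)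
  close : Tendsto (fun n => ∫ x in Ω, ‖fderiv ℝ (fun y => u n y - u0 y
    - σ * ∑ j ∈ Finset.Icc 1 k, (-1) ^ j * W n j y) x‖ ^ 2) atTop (𝓝 0)

/-- There is a sign-changing bubble tower on `Ω` at `lamBar`. -/
def HasTower (N : ℕ) (Ω : Set (RN N)) (lamBar : ℝ) : Prop :=
  ∃ (k : ℕ) (σ : ℝ) (lam : ℕ → ℝ) (u : ℕ → RN N → ℝ) (u0 : RN N → ℝ) (mu : ℕ → ℕ → ℝ)
    (xi : ℕ → ℕ → RN N) (xi0 : RN N) (W : ℕ → ℕ → RN N → ℝ),
    IsTower N Ω lamBar k σ lam u u0 mu xi xi0 W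

theorem bubble_six {μ : ℝ} (hμ : 0 < μ) (ξ x : RN 6) :
    bubble 6 μ ξ x = Pool.Helper4.BT.U μ ξ x := by
  have hA : 0 < μ ^ 2 + ‖x - ξ‖ ^ 2 := by positivity
  unfold bubble Pool.Helper4.BT.U Pool.Helper4.BT.A
  have e1 : (((6 : ℕ) : ℝ) * (((6 : ℕ) : ℝ) - 2)) = 24 := by norm_num
  have e2 : ((((6 : ℕ) : ℝ) - 2) / 4) = 1 := by norm_num
  have e3 : ((((6 : ℕ) : ℝ) - 2) / 2) = 2 := by norm_num
  rw [e1, e2, e3, Real.rpow_one, Real.rpow_neg hA.le]
  have e4 : ∀ t : ℝ, t ^ (2 : ℝ) = t ^ 2 := fun t => by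
    rw [show (2 : ℝ) = ((2 : ℕ) : ℝ) by norm_num, Real.rpow_natCast]
  rw [e4, e4]
  field_simp

theorem crit_six (t : ℝ) : |t| ^ (critExp 6 - 2) = |t| := by
  have e : critExp 6 - 2 = 1 := by unfold critExp; norm_num
  rw [e, Real.rpow_one]

theorem adm_six {Ω : Set (RN 6)} {v : RN 6 → ℝ} (h : Adm 6 Ω v) : Pool.Helper4.BT.Adm6 Ω v :=
  ⟨h.cont, h.zero, h.smooth, h.energy⟩

/-- In dimension six no bounded open set has a sign-changing bubble tower at any positive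
concentration value. -/
theorem result (Ω : Set (RN 6)) (hopen : IsOpen Ω) (hbdd : Bornology.IsBounded Ω)
    (lamBar : ℝ) (hpos : 0 < lamBar) : ¬ HasTower 6 Ω lamBar := by
  rintro ⟨k, σ, lam, u, u0, mu, xi, xi0, W, h⟩
  have hmem : ∀ l < k, l + 1 ∈ Finset.Icc 1 k := fun l hl => by
    rw [Finset.mem_Icc]; omega
  refine Pool.Helper4.BT.glob Ω hopen hbdd k h.two_le lamBar hpos lam h.lam_tendsto u u0
    (fun n l => W n (l + 1)) (fun n => adm_six (h.solution n).1) (adm_six h.solution0.1)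
    (fun n l hl => adm_six (h.projection n (l + 1) (hmem l hl)).1) ?_
    (fun n l => mu n (l + 1)) (fun n l => xi n (l + 1)) (fun l => σ * (-1) ^ (l + 1)) ?_ xi0
    h.centre_mem (fun n l hl => h.scale_pos n (l + 1) (hmem l hl))
    (fun l hl => h.scale_tendsto (l + 1) (hmem l hl)) ?_
    (fun l hl => h.centre_tendsto (l + 1) (hmem l hl)) ?_ ?_ ?_
  · intro n x hx
    rw [(h.solution n).2 x hx, crit_six]
    rfl
  · intro n l hl x hx
    have h1 := (h.projection n (l + 1) (hmem l hl)).2 x hx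
    have h2 : bubble 6 (mu n (l + 1)) (xi n (l + 1))
        = Pool.Helper4.BT.U (mu n (l + 1)) (xi n (l + 1)) := by
      ext y
      exact bubble_six (h.scale_pos n (l + 1) (hmem l hl)) _ _
    rw [h2] at h1
    exact neg_injective h1
  · intro l hl
    exact h.ratio_tendsto (l + 1) (by rw [Finset.mem_Ico]; omega)
  · intro l _
    rcases h.sign with hs | hs <;> rcases neg_one_pow_eq_or ℝ (l + 1) with hp | hp <;>
      rw [hs, hp] <;> norm_num
  · ring
  · refine h.close.congr (fun n => ?_)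
    have e : (fun y => u n y - u0 y - σ * ∑ j ∈ Finset.Icc 1 k, (-1) ^ j * W n j y)
        = fun y => u n y - u0 y - ∑ l ∈ Finset.range k, σ * (-1) ^ (l + 1) * W n (l + 1) y := by
      ext y
      congr 1
      rw [Finset.mul_sum, Finset.range_eq_Ico, ← Finset.Ico_add_one_right_eq_Icc]
      rw [Finset.sum_Ico_add' (fun j => σ * (-1) ^ j * W n j y) 0 k 1]
      apply Finset.sum_congr (by simp)
      intro j _
      ring
    rw [e]

end Pool.Agent.Results.MP_b15193_an.NoTowersDimSix
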